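import Pool.Agent.N71.RP.Stm
import Pool.Agent.N478.EX.MER

/-!
# Project RP (helper71), leaf UPP (helper362): the upper bound for the sum of `1 * f`
(the Euler product part is adapted from `Pool/Agent/N727/EX/SMO.lean`)
-/

set_option autoImplicit false

namespace Pool.Agent.N362.RP

open Finset Filter Pool.Agent.N71.RP
open scoped Classical

variable {f : ℕ → ℝ} {Q : ℝ}

/-- The character as an arithmetic function. -/
noncomputable def cf (f : ℕ → ℝ) : ArithmeticFunction ℝ :=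
  ⟨fun n => if n = 0 then 0 else f n, by simp⟩

theorem cf_mult (hf : Chr f Q) : (cf f).IsMultiplicative := by
  refine ⟨?_, ?_⟩
  · show (if (1 : ℕ) = 0 then (0 : ℝ) else f 1) = 1
    rw [if_neg one_ne_zero, hf.one]
  · intro m n hmn
    show (if m * n = 0 then (0 : ℝ) else f (m * n)) =
      (if m = 0 then (0 : ℝ) else f m) * (if n = 0 then (0 : ℝ) else f n)
    by_cases hm : m = 0
    · simp [hm]
    by_cases hn : n = 0
    · simp [hn]
    rw [if_neg (Nat.mul_ne_zero hm hn), if_neg hm, if_neg hn, hf.mul m n hm hn]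

theorem r2_eq (f : ℕ → ℝ) (n : ℕ) :
    r2 f n = ((ArithmeticFunction.zeta : ArithmeticFunction ℝ) * cf f) n := by
  rw [ArithmeticFunction.coe_zeta_mul_apply]
  unfold r2 cv
  refine Finset.sum_congr rfl fun m hm => ?_
  have hm0 : m ≠ 0 := (Nat.pos_of_mem_divisors hm).ne'
  show f m * 1 = if m = 0 then (0 : ℝ) else f m
  rw [if_neg hm0, mul_one]

theorem r2_mult (hf : Chr f Q) :
    ((ArithmeticFunction.zeta : ArithmeticFunction ℝ) * cf f).IsMultiplicative :=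
  (ArithmeticFunction.isMultiplicative_zeta.natCast).mul (cf_mult hf)

theorem r2_one (hf : Chr f Q) : r2 f 1 = 1 := by
  rw [r2_eq]
  exact (r2_mult hf).1

theorem r2_mul (hf : Chr f Q) {m n : ℕ} (h : Nat.Coprime m n) :
    r2 f (m * n) = r2 f m * r2 f n := by
  simp only [r2_eq]
  exact (r2_mult hf).2 h

theorem f_pow (hf : Chr f Q) (p : ℕ) (hp : p ≠ 0) (k : ℕ) : f (p ^ k) = f p ^ k := by
  induction k with
  | zero => simp [hf.one]
  | succ k ih => rw [pow_succ, hf.mul _ _ (pow_ne_zero _ hp) hp, ih, pow_succ]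

theorem r2_pp (hf : Chr f Q) (p : ℕ) (hp : p.Prime) (k : ℕ) :
    r2 f (p ^ k) = ∑ j ∈ range (k + 1), f p ^ j := by
  unfold r2 cv
  rw [Nat.sum_divisors_prime_pow hp]
  refine Finset.sum_congr rfl fun j _ => ?_
  rw [f_pow hf p hp.ne_zero, mul_one]

/-- The summand. -/
noncomputable def ff (f : ℕ → ℝ) (n : ℕ) : ℝ := r2 f n / n

theorem ff_one (hf : Chr f Q) : ff f 1 = 1 := by
  simp [ff, r2_one hf]

theorem ff_mul (hf : Chr f Q) {m n : ℕ} (h : Nat.Coprime m n) :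
    ff f (m * n) = ff f m * ff f n := by
  unfold ff
  rw [r2_mul hf h, Nat.cast_mul, mul_div_mul_comm]

theorem ff_pp (hf : Chr f Q) (p : ℕ) (hp : p.Prime) (k : ℕ) :
    ff f (p ^ k) = ∑ j ∈ range (k + 1), (f p * (1 / (p : ℝ))) ^ j * (1 / (p : ℝ)) ^ (k - j) := by
  unfold ff
  rw [r2_pp hf p hp, Nat.cast_pow, div_eq_mul_inv, Finset.sum_mul]
  refine Finset.sum_congr rfl fun j hj => ?_
  have hj' : j ≤ k := Nat.lt_succ_iff.1 (Finset.mem_range.1 hj)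
  rw [mul_pow, mul_assoc, ← pow_add, Nat.add_sub_cancel' hj', one_div, inv_pow]

theorem abs_f (hf : Chr f Q) (p : ℕ) : |f p| ≤ 1 := by
  rcases hf.val p with h | h | h <;> rw [h] <;> norm_num

theorem x_lt (p : ℕ) (hp : p.Prime) : 0 < 1 / (p : ℝ) ∧ 1 / (p : ℝ) ≤ 1 / 2 := by
  have hp2 : (2 : ℝ) ≤ p := by exact_mod_cast hp.two_le
  exact ⟨by positivity, one_div_le_one_div_of_le (by norm_num) hp2⟩

theorem fac (hf : Chr f Q) (p : ℕ) (hp : p.Prime) : 0 < 1 - 1 / (p : ℝ) ∧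
    0 < 1 - f p / p ∧ 1 - 1 / (p : ℝ) ≤ 1 - f p / p := by
  obtain ⟨h0, h1⟩ := x_lt p hp
  obtain ⟨h2, h3⟩ := abs_le.1 (abs_f hf p)
  have e : f p / p = f p * (1 / (p : ℝ)) := by ring
  have h4 : f p * (1 / (p : ℝ)) ≤ 1 / p := by nlinarith
  rw [e]
  exact ⟨by linarith, by linarith, by linarith⟩

theorem ff_sum (hf : Chr f Q) (p : ℕ) (hp : p.Prime) :
    Summable (fun n : ℕ => ‖ff f (p ^ n)‖) ∧
      ∑' n : ℕ, ff f (p ^ n) = (1 - f p / p)⁻¹ * (1 - 1 / (p : ℝ))⁻¹ := by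
  obtain ⟨hx0, hx1⟩ := x_lt p hp
  have hq : f p / p = f p * (1 / (p : ℝ)) := by ring
  rw [hq]
  set x : ℝ := 1 / (p : ℝ) with hx
  have hn1 : ‖x‖ < 1 := by
    rw [Real.norm_of_nonneg hx0.le]
    linarith
  have hn2 : ‖f p * x‖ < 1 := by
    rw [norm_mul, Real.norm_eq_abs]
    calc |f p| * ‖x‖ ≤ 1 * ‖x‖ := by gcongr; exact abs_f hf p
      _ < 1 := by rw [one_mul]; exact hn1
  have hs1 : Summable (fun n : ℕ => ‖x ^ n‖) := by
    simpa [norm_pow] using summable_geometric_of_lt_one (norm_nonneg _) hn1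
  have hs2 : Summable (fun n : ℕ => ‖(f p * x) ^ n‖) := by
    simp only [norm_pow]
    exact summable_geometric_of_lt_one (norm_nonneg _) hn2
  have he : ∀ n, ff f (p ^ n) = ∑ k ∈ range (n + 1), (f p * x) ^ k * x ^ (n - k) :=
    fun n => ff_pp hf p hp n
  refine ⟨?_, ?_⟩
  · simp only [he]
    exact summable_norm_sum_mul_range_of_summable_norm hs2 hs1
  · simp only [he]
    rw [← tsum_mul_tsum_eq_tsum_sum_range_of_summable_norm hs2 hs1,
      tsum_geometric_of_norm_lt_one hn2, tsum_geometric_of_norm_lt_one hn1]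

theorem hasSum_FF (hf : Chr f Q) (z : ℕ) :
    HasSum (Set.indicator (Nat.factoredNumbers (Finset.Icc 1 z)) (ff f))
      (∏ p ∈ (Finset.Icc 1 z).filter Nat.Prime, ((1 - f p / p)⁻¹ * (1 - 1 / (p : ℝ))⁻¹)) := by
  have h := (EulerProduct.summable_and_hasSum_factoredNumbers_prod_filter_prime_tsum
    (f := ff f) (ff_one hf) (fun {m n} h => ff_mul hf h)
    (fun {p} hp => (ff_sum hf p hp).1) (Finset.Icc 1 z)).2
  have h2 : ∏ p ∈ (Finset.Icc 1 z).filter Nat.Prime, ∑' n : ℕ, ff f (p ^ n) =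
      ∏ p ∈ (Finset.Icc 1 z).filter Nat.Prime, ((1 - f p / p)⁻¹ * (1 - 1 / (p : ℝ))⁻¹) := by
    refine Finset.prod_congr rfl fun p hp => ?_
    exact (ff_sum hf p (Finset.mem_filter.1 hp).2).2
  rw [h2] at h
  exact hasSum_subtype_iff_indicator.1 h

theorem upper (hPOS : E_POS) (hf : Chr f Q) (N : ℕ) :
    ∑ n ∈ Finset.Icc 1 N, r2 f n / n ≤
      (∏ p ∈ (Finset.Icc 1 N).filter Nat.Prime, (1 - f p / p)⁻¹) *
        ∏ p ∈ (Finset.Icc 1 N).filter Nat.Prime, (1 - 1 / (p : ℝ))⁻¹ := by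
  rw [← Finset.prod_mul_distrib]
  have h := hasSum_FF hf N
  have h0 : ∀ n, 0 ≤ Set.indicator (Nat.factoredNumbers (Finset.Icc 1 N)) (ff f) n := by
    intro n
    refine Set.indicator_nonneg (fun n _ => ?_) n
    exact div_nonneg ((hPOS f f Q hf hf).1 n) (Nat.cast_nonneg n)
  refine le_trans (le_of_eq ?_) (sum_le_hasSum (Finset.Icc 1 N) (fun n _ => h0 n) h)
  refine Finset.sum_congr rfl fun n hn => ?_
  rw [Set.indicator_of_mem]
  · rfl
  · refine Nat.mem_factoredNumbers'.2 fun p hp hpn => ?_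
    rw [Finset.mem_Icc] at hn ⊢
    exact ⟨hp.one_lt.le, (Nat.le_of_dvd (by omega) hpn).trans hn.2⟩

/-- the trivial character -/
noncomputable def dl (n : ℕ) : ℝ := if n = 1 then 1 else 0

theorem chr_dl : Chr dl 1 where
  one := by simp [dl]
  mul a b _ _ := by
    unfold dl
    by_cases ha : a = 1
    · simp [ha]
    · have : a * b ≠ 1 := fun h => ha (Nat.eq_one_of_mul_eq_one_right h)
      simp [ha, this]
  val n := by
    unfold dl
    split_ifs <;> simp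
  sum t := by
    unfold dl
    rw [Finset.sum_ite_eq']
    split_ifs <;> simp

theorem r2_dl {n : ℕ} (hn : n ≠ 0) : r2 dl n = 1 := by
  unfold r2 cv dl
  simp [Finset.sum_ite_eq', hn]

theorem mertens_low (hPOS : E_POS) (X : ℕ) :
    Real.log X ≤ ∏ p ∈ (Finset.Icc 1 X).filter Nat.Prime, (1 - 1 / (p : ℝ))⁻¹ := by
  rcases Nat.eq_zero_or_pos X with h | hX
  · subst h
    simp
  have h := upper hPOS chr_dl X
  have h1 : ∏ p ∈ (Finset.Icc 1 X).filter Nat.Prime, (1 - dl p / p)⁻¹ = 1 := by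
    refine Finset.prod_eq_one fun p hp => ?_
    have hp1 : p ≠ 1 := (Finset.mem_filter.1 hp).2.ne_one
    simp [dl, hp1]
  rw [h1, one_mul] at h
  refine le_trans ?_ h
  have h2 : ∑ n ∈ Finset.Icc 1 X, r2 dl n / n = ((harmonic X : ℚ) : ℝ) := by
    rw [harmonic_eq_sum_Icc, Rat.cast_sum]
    refine Finset.sum_congr rfl fun n hn => ?_
    rw [Finset.mem_Icc] at hn
    rw [r2_dl (by omega), one_div, Rat.cast_inv, Rat.cast_natCast]
  rw [h2]
  refine le_trans ?_ (log_add_one_le_harmonic X)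
  exact Real.log_le_log (by exact_mod_cast hX) (by push_cast; linarith)

theorem t_UPP (hPOS : E_POS) : E_UPP := by
  obtain ⟨C, hC, hM⟩ := Pool.Agent.N478.EX.mertens_prod
  intro a
  refine ⟨(C * ((a : ℝ) + 1)) ^ 2, by positivity, fun X hX f Q hf => ?_⟩
  have hXr : (2 : ℝ) ≤ X := by exact_mod_cast hX
  have hL : 0 < Real.log X := Real.log_pos (by linarith)
  obtain ⟨N, hN⟩ : ∃ N, N = X ^ (a + 1) := ⟨_, rfl⟩
  have hXN : X ≤ N := by
    rw [hN]
    exact Nat.le_self_pow (by omega) X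
  have hLN : Real.log N = ((a : ℝ) + 1) * Real.log X := by
    rw [hN, Nat.cast_pow, Real.log_pow]
    push_cast
    ring
  obtain ⟨P, hP⟩ : ∃ P : ℕ → Finset ℕ, P = fun n => (Finset.Icc 1 n).filter Nat.Prime :=
    ⟨_, rfl⟩
  have hpr : ∀ n, ∀ p ∈ P n, p.Prime := fun n p hp => by
    rw [hP] at hp
    exact (mem_filter.1 hp).2
  have hsub : P X ⊆ P N := by
    intro p hp
    rw [hP] at hp ⊢
    rw [mem_filter, mem_Icc] at hp ⊢
    exact ⟨⟨hp.1.1, hp.1.2.trans hXN⟩, hp.2⟩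
  have h1 : ∑ n ∈ Finset.Icc 1 (X ^ a), r2 f n / n ≤ ∑ n ∈ Finset.Icc 1 N, r2 f n / n := by
    refine sum_le_sum_of_subset_of_nonneg (Icc_subset_Icc le_rfl ?_) fun n _ _ =>
      div_nonneg ((hPOS f f Q hf hf).1 n) (Nat.cast_nonneg n)
    rw [hN]
    exact Nat.pow_le_pow_right (by omega) (by omega)
  have h2 : ∑ n ∈ Finset.Icc 1 N, r2 f n / n ≤
      (∏ p ∈ P N, (1 - f p / p)⁻¹) * ∏ p ∈ P N, (1 - 1 / (p : ℝ))⁻¹ := by
    rw [hP]
    exact upper hPOS hf N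
  have h3 : ∏ p ∈ P N, (1 - 1 / (p : ℝ))⁻¹ ≤ C * (((a : ℝ) + 1) * Real.log X) := by
    rw [hP, ← hLN]
    exact hM N (by omega)
  have h4 : Real.log X ≤ ∏ p ∈ P X, (1 - 1 / (p : ℝ))⁻¹ := by
    rw [hP]
    exact mertens_low hPOS X
  have h5 : PP f X = ∏ p ∈ P X, (1 - f p / p)⁻¹ := by
    rw [hP]
    rfl
  have hR0 : 0 ≤ ∏ p ∈ P N \ P X, (1 - 1 / (p : ℝ))⁻¹ :=
    prod_nonneg fun p hp => inv_nonneg.2 (fac hf p (hpr N p (mem_sdiff.1 hp).1)).1.le
  have hR : ∏ p ∈ P N \ P X, (1 - 1 / (p : ℝ))⁻¹ ≤ C * ((a : ℝ) + 1) := by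
    have e : (∏ p ∈ P N \ P X, (1 - 1 / (p : ℝ))⁻¹) * ∏ p ∈ P X, (1 - 1 / (p : ℝ))⁻¹ =
        ∏ p ∈ P N, (1 - 1 / (p : ℝ))⁻¹ := prod_sdiff hsub
    have h6 := mul_le_mul_of_nonneg_left h4 hR0
    rw [e] at h6
    have h7 := h6.trans h3
    have h8 : C * (((a : ℝ) + 1) * Real.log X) = (C * ((a : ℝ) + 1)) * Real.log X := by ring
    rw [h8] at h7
    exact le_of_mul_le_mul_right h7 hL
  have hPP0 : 0 ≤ PP f X := by
    rw [h5]
    exact prod_nonneg fun p hp => inv_nonneg.2 (fac hf p (hpr X p hp)).2.1.le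
  have hS : ∏ p ∈ P N \ P X, (1 - f p / p)⁻¹ ≤ ∏ p ∈ P N \ P X, (1 - 1 / (p : ℝ))⁻¹ := by
    apply Finset.prod_le_prod
    · intro p hp
      exact inv_nonneg.2 (fac hf p (hpr N p (mem_sdiff.1 hp).1)).2.1.le
    · intro p hp
      have := fac hf p (hpr N p (mem_sdiff.1 hp).1)
      exact inv_anti₀ this.1 this.2.2
  have h9 : ∏ p ∈ P N, (1 - f p / p)⁻¹ ≤ (C * ((a : ℝ) + 1)) * PP f X := by
    rw [← prod_sdiff hsub, ← h5]
    exact mul_le_mul_of_nonneg_right (hS.trans hR) hPP0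
  have hA0 : 0 ≤ ∏ p ∈ P N, (1 - 1 / (p : ℝ))⁻¹ :=
    prod_nonneg fun p hp => inv_nonneg.2 (fac hf p (hpr N p hp)).1.le
  calc ∑ n ∈ Finset.Icc 1 (X ^ a), r2 f n / n
      ≤ (∏ p ∈ P N, (1 - f p / p)⁻¹) * ∏ p ∈ P N, (1 - 1 / (p : ℝ))⁻¹ := h1.trans h2
    _ ≤ ((C * ((a : ℝ) + 1)) * PP f X) * (C * (((a : ℝ) + 1) * Real.log X)) := by
        have : 0 ≤ (C * ((a : ℝ) + 1)) * PP f X := mul_nonneg (by positivity) hPP0
        exact mul_le_mul h9 h3 hA0 this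
    _ = (C * ((a : ℝ) + 1)) ^ 2 * (Real.log X * PP f X) := by ring

end Pool.Agent.N362.RP
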